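import Pool.Agent.Helper57.FP.Shift
import Pool.Agent.Helper57.NX3.Defs

/-!
# The pair sieve with the exact local factor

The number of `n < Z` such that `n` and `n + h` are primes is at most
`C * (h / φ(h)) * Z / (log Z)^2`, uniformly in `h ≥ 1`.
-/

set_option autoImplicit false

open Finset
open scoped BigOperators

namespace Pool.Agent.Helper57.NX3

open Pool.Agent.Helper44 Pool.Agent.Helper96.CPAP Pool.Agent.Helper57.FP

/-- the two shifts -/
private def psy (h : ℕ) : Bool → ℕ := fun b => if b then h else 0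

private lemma psy_le (h q : ℕ) : nu (psy h) q ≤ 2 := nu_le (psy h) q

private lemma psy_ge (h q : ℕ) (hq : 0 < q) (hd : ¬ q ∣ h) : 2 ≤ nu (psy h) q := by
  apply nu_ge (psy h) hq
  intro i j hij hdvd
  apply hd
  cases i <;> cases j <;> simp [psy] at hij hdvd
  · exact_mod_cast hdvd
  · exact_mod_cast hdvd

private lemma psy_pos (h q : ℕ) (hq : 0 < q) : 1 ≤ nu (psy h) q := by
  classical
  rw [nu_eq]
  apply Nat.succ_le_of_lt
  rw [Finset.card_pos]
  refine ⟨0, ?_⟩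
  rw [Finset.mem_filter, Finset.mem_range]
  exact ⟨hq, false, by simp [psy]⟩

private lemma ratio_eq (h : ℕ) (hh : 1 ≤ h) :
    (h : ℝ) / h.totient = ∏ q ∈ h.primeFactors, (1 - 1 / (q : ℝ))⁻¹ := by
  have h1 := Nat.totient_eq_mul_prod_factors h
  have h2 : (h.totient : ℝ) = h * ∏ p ∈ h.primeFactors, (1 - (p : ℝ)⁻¹) := by
    have := congrArg (fun x : ℚ => (x : ℝ)) h1
    push_cast at this
    exact this
  have h3 : (h : ℝ) ≠ 0 := by exact_mod_cast (by omega : h ≠ 0)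
  rw [h2, Finset.prod_inv_distrib]
  simp only [one_div]
  have h4 : ∏ p ∈ h.primeFactors, (1 - (p : ℝ)⁻¹) ≠ 0 := by
    rw [Finset.prod_ne_zero_iff]
    intro p hp
    have hp' := (Nat.prime_of_mem_primeFactors hp).two_le
    have hp2 : (2 : ℝ) ≤ p := by exact_mod_cast hp'
    have : (p : ℝ)⁻¹ ≤ 1 / 2 := by
      rw [inv_eq_one_div]
      exact one_div_le_one_div_of_le (by norm_num) hp2
    linarith
  field_simp

private lemma ratio_ge (h : ℕ) (hh : 1 ≤ h) : 1 ≤ (h : ℝ) / h.totient := by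
  have h1 : 0 < h.totient := Nat.totient_pos.2 (by omega)
  rw [one_le_div (by exact_mod_cast h1)]
  exact_mod_cast Nat.totient_le h

private lemma local_le {q : ℝ} (hq : 4 ≤ q) :
    1 - 1 / q ≤ (1 - 2 / q) * ((1 - 1 / q)⁻¹ * Real.exp (2 * (1 / q) ^ 2)) := by
  have hq0 : 0 < q := by linarith
  have hx0 : 0 < 1 / q := by positivity
  have hx : 1 / q ≤ 1 / 4 := one_div_le_one_div_of_le (by norm_num) hq
  have h2 : 2 / q = 2 * (1 / q) := by ring
  rw [h2]
  set x := 1 / q with hxdef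
  have h3 : 2 * x ^ 2 + 1 ≤ Real.exp (2 * x ^ 2) := Real.add_one_le_exp _
  have h4 : 0 < 1 - x := by linarith
  have h5 : (1 - x) * (1 - x) ≤ (1 - 2 * x) * Real.exp (2 * x ^ 2) := by
    have h6 : (1 - x) * (1 - x) ≤ (1 - 2 * x) * (2 * x ^ 2 + 1) := by
      nlinarith [mul_pos hx0 hx0, mul_nonneg (mul_pos hx0 hx0).le (by linarith : 0 ≤ 1 - 4 * x)]
    exact h6.trans (mul_le_mul_of_nonneg_left h3 (by linarith))
  have h7 : (1 - 2 * x) * ((1 - x)⁻¹ * Real.exp (2 * x ^ 2))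
      = ((1 - 2 * x) * Real.exp (2 * x ^ 2)) / (1 - x) := by
    field_simp
  rw [h7, le_div_iff₀ h4]
  exact h5

private lemma prod_local : ∃ C : ℝ, 0 < C ∧ ∀ w : ℝ, 2 ≤ w → ∀ h : ℕ, 1 ≤ h →
    ∏ q ∈ pU (PP 2) w, (1 - (nu (psy h) q : ℝ) / q) ≤
      C * ((h : ℝ) / h.totient) / (Real.log w) ^ 2 := by
  classical
  obtain ⟨C, hC, hmain⟩ := prod_main_le 2
  obtain ⟨C2, hC2, hS⟩ := sum_inv_sq_le
  refine ⟨C * Real.exp (2 * C2), by positivity, ?_⟩
  intro w hw h hh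
  have hP' : ∀ q, PP 2 q → q.Prime := fun q h => h.1
  have hw0 : 0 ≤ w := by linarith
  have hlw : 0 < Real.log w := Real.log_pos (by linarith)
  have hq : ∀ q ∈ pU (PP 2) w, (4 : ℝ) ≤ q ∧ q.Prime := by
    intro q hq
    rw [mem_pU hP' hw0] at hq
    have h1 : 4 ≤ q := hq.1.2
    exact ⟨by exact_mod_cast h1, hq.1.1⟩
  have h1 : ∏ q ∈ pU (PP 2) w, (1 - (nu (psy h) q : ℝ) / q) ≤
      ∏ q ∈ pU (PP 2) w, ((1 - ((2 : ℕ) : ℝ) / q) *
        ((if q ∣ h then (1 - 1 / (q : ℝ))⁻¹ else 1) * Real.exp (2 * (1 / (q : ℝ)) ^ 2))) := by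
    apply Finset.prod_le_prod
    · intro q hq'
      obtain ⟨hq4, hqp⟩ := hq q hq'
      have h2 : (nu (psy h) q : ℝ) ≤ 2 := by exact_mod_cast psy_le h q
      have : (nu (psy h) q : ℝ) / q ≤ 1 := by
        rw [div_le_one (by linarith)]
        linarith
      linarith
    · intro q hq'
      obtain ⟨hq4, hqp⟩ := hq q hq'
      have hq0 : (0 : ℝ) < q := by linarith
      have hpush : ((2 : ℕ) : ℝ) / q = 2 / q := by norm_num
      rw [hpush]
      have h2q : (2 : ℝ) / q ≤ 1 / 2 := by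
        rw [div_le_iff₀ hq0]; linarith
      split_ifs with hd
      · have h2 : (1 : ℝ) ≤ nu (psy h) q := by exact_mod_cast psy_pos h q hqp.pos
        have h3 : (1 : ℝ) / q ≤ (nu (psy h) q : ℝ) / q := div_le_div_of_nonneg_right h2 hq0.le
        have h4 := local_le hq4
        linarith
      · have h2 : (2 : ℝ) ≤ nu (psy h) q := by exact_mod_cast psy_ge h q hqp.pos hd
        have h3 : (2 : ℝ) / q ≤ (nu (psy h) q : ℝ) / q := div_le_div_of_nonneg_right h2 hq0.le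
        rw [one_mul]
        have h4 : 1 ≤ Real.exp (2 * (1 / (q : ℝ)) ^ 2) := Real.one_le_exp (by positivity)
        have h5 : (1 - 2 / (q : ℝ)) * 1 ≤ (1 - 2 / (q : ℝ)) * Real.exp (2 * (1 / (q : ℝ)) ^ 2) :=
          mul_le_mul_of_nonneg_left h4 (by linarith)
        linarith
  rw [Finset.prod_mul_distrib, Finset.prod_mul_distrib] at h1
  have h2 : ∏ q ∈ pU (PP 2) w, (if q ∣ h then (1 - 1 / (q : ℝ))⁻¹ else 1) ≤
      (h : ℝ) / h.totient := by
    rw [← Finset.prod_filter, ratio_eq h hh]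
    apply prod_le_prod_subset_real
    · intro q hq'
      rw [Finset.mem_filter] at hq'
      rw [Nat.mem_primeFactors]
      exact ⟨(hq q hq'.1).2, hq'.2, by omega⟩
    · intro q hq'
      have hq2 := (Nat.prime_of_mem_primeFactors hq').two_le
      have hq3 : (2 : ℝ) ≤ q := by exact_mod_cast hq2
      have hq4 : 1 / (q : ℝ) ≤ 1 / 2 := one_div_le_one_div_of_le (by norm_num) hq3
      have hq5 : 0 ≤ 1 / (q : ℝ) := by positivity
      rw [one_le_inv₀ (by linarith)]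
      linarith
  have h3 : ∏ q ∈ pU (PP 2) w, Real.exp (2 * (1 / (q : ℝ)) ^ 2) ≤ Real.exp (2 * C2) := by
    rw [← Real.exp_sum, ← Finset.mul_sum]
    apply Real.exp_le_exp.mpr
    have := hS (pU (PP 2) w)
    linarith
  have h4 : 0 ≤ ∏ q ∈ pU (PP 2) w, (1 - ((2 : ℕ) : ℝ) / q) := by
    apply Finset.prod_nonneg
    intro q hq'
    obtain ⟨hq4, _⟩ := hq q hq'
    have hq0 : (0 : ℝ) < q := by linarith
    have : ((2 : ℕ) : ℝ) / q ≤ 1 / 2 := by
      rw [div_le_iff₀ hq0]; push_cast; linarith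
    linarith
  have h5 : 0 ≤ ∏ q ∈ pU (PP 2) w, Real.exp (2 * (1 / (q : ℝ)) ^ 2) :=
    Finset.prod_nonneg fun q _ => (Real.exp_pos _).le
  have h6 : 0 ≤ (h : ℝ) / h.totient := by positivity
  calc ∏ q ∈ pU (PP 2) w, (1 - (nu (psy h) q : ℝ) / q) ≤ _ := h1
    _ ≤ (∏ q ∈ pU (PP 2) w, (1 - ((2 : ℕ) : ℝ) / q)) *
        (((h : ℝ) / h.totient) * Real.exp (2 * C2)) := by
        apply mul_le_mul_of_nonneg_left _ h4
        exact mul_le_mul h2 h3 h5 h6
    _ ≤ (C / (Real.log w) ^ 2) * (((h : ℝ) / h.totient) * Real.exp (2 * C2)) :=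
        mul_le_mul_of_nonneg_right (hmain w hw) (by positivity)
    _ = _ := by ring

theorem pair_sieve : ∃ C : ℝ, 0 < C ∧ ∃ Z0 : ℕ, ∀ Z : ℕ, Z0 ≤ Z → ∀ h : ℕ, 1 ≤ h →
    (((range Z).filter (fun n => n.Prime ∧ (n + h).Prime)).card : ℝ) ≤
      C * ((h : ℝ) / h.totient) * (Z / (Real.log Z) ^ 2) := by
  classical
  obtain ⟨K, c, hK, hc, hS⟩ := sieveK 2
  obtain ⟨C, hC, hprod⟩ := prod_local
  obtain ⟨Z1, hZ1⟩ := Filter.eventually_atTop.mp (eventually_small 2)
  obtain ⟨Z2, hZ2⟩ : ∃ Z2 : ℕ, ∀ Z : ℕ, Z2 ≤ Z → (2 : ℝ) ≤ (Z : ℝ) ^ (1 / (2 * K)) := by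
    have h := (tendsto_rpow_atTop (y := 1 / (2 * K)) (by positivity)).comp
      (tendsto_natCast_atTop_atTop (R := ℝ))
    obtain ⟨Z2, h2⟩ := Filter.eventually_atTop.mp (h.eventually (Filter.eventually_ge_atTop 2))
    exact ⟨Z2, h2⟩
  refine ⟨2 * C * (2 * K) ^ 2 + 1, by positivity, max (max Z1 Z2) 2, ?_⟩
  intro Z hZ h hh
  set y : Bool → ℕ := psy h with hy
  have hZ1' := hZ1 Z ((le_max_left _ _).trans ((le_max_left _ _).trans hZ))
  have hZ2' := hZ2 Z ((le_max_right _ _).trans ((le_max_left _ _).trans hZ))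
  have hZ3 : 2 ≤ Z := (le_max_right _ _).trans hZ
  have hZr : (1 : ℝ) < Z := by exact_mod_cast hZ3
  have hZ0 : (0 : ℝ) < Z := by linarith
  have hlog : 0 < Real.log Z := Real.log_pos hZr
  set w : ℝ := (Z : ℝ) ^ (1 / (2 * K)) with hw
  have hw0 : 0 < w := by linarith
  have hlogw : Real.log w = Real.log Z / (2 * K) := by
    rw [hw, Real.log_rpow hZ0]; ring
  have hwK : w ^ K = (Z : ℝ) ^ (1 / 2 : ℝ) := by
    rw [hw, ← Real.rpow_mul hZ0.le]
    congr 1
    field_simp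
  have hwle : w ≤ (Z : ℝ) ^ (1 / 2 : ℝ) := by
    rw [hw]
    apply Real.rpow_le_rpow_of_exponent_le hZr.le
    apply one_div_le_one_div_of_le (by norm_num)
    linarith
  have hone : (1 : ℝ) ≤ (Z : ℝ) ^ (1 / 2 : ℝ) := Real.one_le_rpow hZr.le (by norm_num)
  -- sieve bound
  have h1 := (hS ℕ (PP 2) (fun q h => h) (fun q => (nu y q : ℝ)) (fun q _ => by
      refine ⟨by positivity, ?_⟩
      have := psy_le h q
      exact_mod_cast this) w hZ2' (range Z) (fun q n => ∃ i, q ∣ n + y i) Z 1 hZ0.le zero_le_one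
      (fun I hI => by
        have := count_bound' y I (fun q hq => (hI q hq).1.1) Z
        simpa using this)).1
  rw [hwK, one_mul] at h1
  -- cover
  have h2 : (((range Z).filter (fun n => n.Prime ∧ (n + h).Prime)).card : ℝ) ≤
      evCount (range Z) (fun n => ∀ q : ℕ, PP 2 q → (q : ℝ) ≤ w → ¬ ∃ i, q ∣ n + y i) +
        (w + 1) := by
    rw [evCount_eq]
    have hsub : (range Z).filter (fun n => n.Prime ∧ (n + h).Prime) ⊆
        (range Z).filter (fun n => ∀ q : ℕ, PP 2 q → (q : ℝ) ≤ w → ¬ ∃ i, q ∣ n + y i) ∪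
          range (⌊w⌋₊ + 1) := by
      intro n hn
      rw [Finset.mem_filter] at hn
      rw [Finset.mem_union, Finset.mem_filter, Finset.mem_range]
      by_cases h' : n < ⌊w⌋₊ + 1
      · right; exact Finset.mem_range.mpr h'
      · left
        refine ⟨Finset.mem_range.mp hn.1, ?_⟩
        rintro q hq hqw ⟨i, hi⟩
        have hpr : (n + y i).Prime := by
          cases i
          · simpa [hy, psy] using hn.2.1
          · simpa [hy, psy] using hn.2.2
        have h3 : q = n + y i := (Nat.prime_dvd_prime_iff_eq hq.1 hpr).mp hi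
        have h4 : q ≤ ⌊w⌋₊ := Nat.le_floor hqw
        omega
    have h3 := Finset.card_le_card hsub
    have h4 := h3.trans (Finset.card_union_le _ _)
    rw [Finset.card_range] at h4
    have h5 : ((⌊w⌋₊ + 1 : ℕ) : ℝ) ≤ w + 1 := by
      push_cast
      linarith [Nat.floor_le hw0.le]
    calc _ ≤ ((((range Z).filter (fun n => ∀ q : ℕ, PP 2 q → (q : ℝ) ≤ w →
              ¬ ∃ i, q ∣ n + y i)).card + (⌊w⌋₊ + 1) : ℕ) : ℝ) := by exact_mod_cast h4
      _ ≤ _ := by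
          push_cast
          push_cast at h5
          linarith
  have h3 := hprod w hZ2' h hh
  have hT := ratio_ge h hh
  set T := (h : ℝ) / h.totient with hTdef
  have h4 : C * T / (Real.log w) ^ 2 = C * (2 * K) ^ 2 * T / (Real.log Z) ^ 2 := by
    rw [hlogw, div_pow]
    field_simp
  rw [h4] at h3
  have h5 : 2 * (Z : ℝ) * ∏ q ∈ pU (PP 2) w, (1 - (nu y q : ℝ) / q) ≤
      2 * Z * (C * (2 * K) ^ 2 * T / (Real.log Z) ^ 2) :=
    mul_le_mul_of_nonneg_left h3 (by positivity)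
  have h6 : (0 : ℝ) ≤ Z / (Real.log Z) ^ 2 := by positivity
  have h7 : Z / (Real.log Z) ^ 2 ≤ T * (Z / (Real.log Z) ^ 2) := le_mul_of_one_le_left h6 hT
  calc _ ≤ _ := h2
    _ ≤ (2 * Z * (C * (2 * K) ^ 2 * T / (Real.log Z) ^ 2) + (Z : ℝ) ^ (1 / 2 : ℝ)) +
        (w + 1) := by linarith
    _ ≤ 2 * Z * (C * (2 * K) ^ 2 * T / (Real.log Z) ^ 2) + 3 * (Z : ℝ) ^ (1 / 2 : ℝ) := by
        linarith
    _ ≤ 2 * Z * (C * (2 * K) ^ 2 * T / (Real.log Z) ^ 2) + Z / (Real.log Z) ^ 2 := by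
        linarith
    _ ≤ 2 * Z * (C * (2 * K) ^ 2 * T / (Real.log Z) ^ 2) + T * (Z / (Real.log Z) ^ 2) := by
        linarith
    _ = (2 * C * (2 * K) ^ 2 + 1) * T * (Z / (Real.log Z) ^ 2) := by ring

end Pool.Agent.Helper57.NX3
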